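import Pool.Agent.H74.TSD.Targets

set_option autoImplicit false

open MeasureTheory Set Metric Filter
open scoped ENNReal Pointwise Topology

namespace Pool.Agent.H23.TSD

open Pool.Agent.H74.TSD Pool.Agent.H73.TS

theorem pf_DV : T_DV := by
  intro B a b c
  have h1 : (Matrix.of fun i j => (![fa B a, fa B b, fa B c] : Fin 3 → (E 3 →L[ℝ] ℝ)) i
      (EuclideanSpace.single j (1 : ℝ))) =
      (Matrix.of fun i k => (![a, b, c] : Fin 3 → E 3) i k) *
        LinearMap.toMatrix (EuclideanSpace.basisFun (Fin 3) ℝ).toBasis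
          (EuclideanSpace.basisFun (Fin 3) ℝ).toBasis (B : E 3 →ₗ[ℝ] E 3) := by
    ext i j
    rw [Matrix.mul_apply]
    have h2 : ∀ k, LinearMap.toMatrix (EuclideanSpace.basisFun (Fin 3) ℝ).toBasis
          (EuclideanSpace.basisFun (Fin 3) ℝ).toBasis (B : E 3 →ₗ[ℝ] E 3) k j =
          (B (EuclideanSpace.single j (1 : ℝ))) k := by
      intro k
      rw [LinearMap.toMatrix_apply]
      simp
    have h3 : ∀ v : E 3, fa B v (EuclideanSpace.single j (1 : ℝ)) =
        ∑ k, v k * (B (EuclideanSpace.single j (1 : ℝ))) k := by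
      intro v
      simp only [fa, ContinuousLinearMap.comp_apply, innerSL_apply_apply]
      rw [PiLp.inner_apply]
      refine Finset.sum_congr rfl fun k _ => ?_
      simp [mul_comm]
    simp only [h2, Matrix.of_apply]
    fin_cases i
    · exact h3 a
    · exact h3 b
    · exact h3 c
  unfold dt
  rw [h1, Matrix.det_mul, LinearMap.det_toMatrix]
  congr 1
  rw [Matrix.det_fin_three]
  simp only [det3, Matrix.of_apply, Matrix.cons_val_zero, Matrix.cons_val_one, Matrix.cons_val]
  ring

end Pool.Agent.H23.TSD
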